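import Pool.Agent.H75.L.W988.WD.Defs
import Pool.Agent.H75.L8.H518R5.SC.POLC

/-!
# WD-LOC: nonzero projections of a factor have nonzero equivalent subprojections
-/

set_option autoImplicit false

open scoped InnerProductSpace

namespace Pool.Agent.W395.WD

open Pool.Agent.W988.WD Pool.Agent.H467F

section

variable {H : Type} [NormedAddCommGroup H] [InnerProductSpace ℂ H] [CompleteSpace H]

/-- the common kernel of the operators `e y`, `y ∈ N` -/
def ker0 (N : VonNeumannAlgebra H) (e : H →L[ℂ] H) : Submodule ℂ H where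
  carrier := {η | ∀ y ∈ N, e (y η) = 0}
  add_mem' := by
    intro a b ha hb y hy
    rw [map_add, map_add, ha y hy, hb y hy, add_zero]
  zero_mem' := by
    intro y _
    rw [map_zero, map_zero]
  smul_mem' := by
    intro c a ha y hy
    rw [map_smul, map_smul, ha y hy, smul_zero]

lemma mem_ker0 {N : VonNeumannAlgebra H} {e : H →L[ℂ] H} {η : H} :
    η ∈ ker0 N e ↔ ∀ y ∈ N, e (y η) = 0 := Iff.rfl

lemma isClosed_ker0 (N : VonNeumannAlgebra H) (e : H →L[ℂ] H) :
    IsClosed (ker0 N e : Set H) := by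
  have h : (ker0 N e : Set H) = ⋂ y : {y : H →L[ℂ] H // y ∈ N}, {η | e ((y : H →L[ℂ] H) η) = 0} := by
    ext η
    simp only [SetLike.mem_coe, mem_ker0, Set.mem_iInter, Set.mem_ofPred_eq, Subtype.forall]
  rw [h]
  exact isClosed_iInter fun y => isClosed_eq (by fun_prop) continuous_const

/-- a projection onto a closed subspace that is invariant under `y` and `star y` commutes with `y` -/
lemma proj_comm (K : Submodule ℂ H) [K.HasOrthogonalProjection] (y : H →L[ℂ] H)
    (h1 : ∀ ξ ∈ K, y ξ ∈ K) (h2 : ∀ ξ ∈ K, star y ξ ∈ K) :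
    K.starProjection * y = y * K.starProjection := by
  set P : H →L[ℂ] H := K.starProjection with hP
  have hPm : ∀ ξ, P ξ ∈ K := fun ξ => by
    rw [hP]; exact Submodule.starProjection_apply_mem K ξ
  have hPK : ∀ ξ ∈ K, P ξ = ξ := fun ξ hξ => by
    rw [hP]; exact Submodule.starProjection_eq_self_iff.2 hξ
  have hs : star P = P := by
    rw [hP]; exact (isSelfAdjoint_starProjection K).star_eq
  have e1 : P * y * P = y * P := by
    ext ξ
    exact hPK _ (h1 _ (hPm ξ))
  have e2 : P * star y * P = star y * P := by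
    ext ξ
    exact hPK _ (h2 _ (hPm ξ))
  have e3 : P * y * P = P * y := by
    have := congrArg star e2
    rw [star_mul, star_mul, star_mul, star_star, hs, ← mul_assoc] at this
    exact this
  rw [← e3, e1]

lemma exists_nz (N : VonNeumannAlgebra H) (hN : Factor N) {e f : H →L[ℂ] H} (he : e ∈ N)
    (_hf : f ∈ N) (hpe : Prj e) (hpf : Prj f) (he0 : e ≠ 0) (hf0 : f ≠ 0) :
    ∃ x ∈ N, f * x * e ≠ 0 := by
  by_contra hcon
  push Not at hcon
  set K : Submodule ℂ H := ker0 N e with hK
  have hKc : CompleteSpace K := (isClosed_ker0 N e).completeSpace_coe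
  set P : H →L[ℂ] H := K.starProjection with hP
  have hinv : ∀ z ∈ N, ∀ ξ ∈ K, z ξ ∈ K := by
    intro z hz ξ hξ y hy
    have : y * z ∈ N := mul_mem hy hz
    exact hξ (y * z) this
  have hcomN : ∀ z ∈ N, P * z = z * P := by
    intro z hz
    exact proj_comm K z (hinv z hz) (hinv (star z) (star_mem hz))
  have hinv' : ∀ z : H →L[ℂ] H, (∀ x ∈ N, x * z = z * x) → ∀ ξ ∈ K, z ξ ∈ K := by
    intro z hz ξ hξ y hy
    have h1 : y (z ξ) = z (y ξ) := congrArg (fun T : H →L[ℂ] H => T ξ) (hz y hy)
    have h2 : e (z (y ξ)) = z (e (y ξ)) := congrArg (fun T : H →L[ℂ] H => T (y ξ)) (hz e he)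
    rw [h1, h2, hξ y hy, map_zero]
  have hPN : P ∈ N := by
    refine Pool.Agent.H518R5.SC.POLC_mem N P ?_
    intro z hz
    refine proj_comm K z (hinv' z hz) (hinv' (star z) ?_)
    intro x hx
    have := hz (star x) (star_mem hx)
    have h2 := congrArg star this
    rw [star_mul, star_mul, star_star] at h2
    exact h2.symm
  obtain ⟨c, hc⟩ := hN P hPN hcomN
  have hPm : ∀ ξ, P ξ ∈ K := fun ξ => by
    rw [hP]; exact Submodule.starProjection_apply_mem K ξ
  have hPK : ∀ ξ ∈ K, P ξ = ξ := fun ξ hξ => by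
    rw [hP]; exact Submodule.starProjection_eq_self_iff.2 hξ
  have heP : e * P = 0 := by
    ext ξ
    have := hPm ξ 1 (one_mem N)
    simpa using this
  have hc0 : c = 0 := by
    rw [hc, mul_smul_comm, mul_one] at heP
    rcases smul_eq_zero.1 heP with h | h
    · exact h
    · exact absurd h he0
  have hP0 : P = 0 := by rw [hc, hc0, zero_smul]
  have hfK : ∀ ξ, f ξ ∈ K := by
    intro ξ y hy
    have h1 : e * y * f = 0 := by
      have h2 := hcon (star y) (star_mem hy)
      have h3 := congrArg star h2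
      rw [star_mul, star_mul, star_star, hpe.1, hpf.1, star_zero, ← mul_assoc] at h3
      exact h3
    exact congrArg (fun T : H →L[ℂ] H => T ξ) h1
  refine hf0 ?_
  ext ξ
  have h1 := hPK _ (hfK ξ)
  rw [hP0] at h1
  simpa using h1.symm

end

theorem p_LOC : S_LOC := by
  intro H _ _ _ N hN e he f hf hpe hpf he0 hf0
  obtain ⟨x, hx, hne⟩ := exists_nz N hN he hf hpe hpf he0 hf0
  set y : Elt N := ⟨f * x * e, mul_mem (mul_mem hf hx) he⟩ with hy
  obtain ⟨v, a, -, -, hva, hp1, -, hfv, hev, -⟩ := Pool.Agent.H518R5.SC.p_POLC H N y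
  have hfv' : (⟨f, hf⟩ : Elt N) * v = v := by
    refine hfv ⟨f, hf⟩ ⟨Subtype.ext hpf.1, Subtype.ext hpf.2⟩ ?_
    apply Subtype.ext
    show f * (f * x * e) = f * x * e
    rw [← mul_assoc, ← mul_assoc, hpf.2]
  have hev' : v * (⟨e, he⟩ : Elt N) = v := by
    refine (hev ⟨e, he⟩ ⟨Subtype.ext hpe.1, Subtype.ext hpe.2⟩ ?_).1
    apply Subtype.ext
    show f * x * e * e = f * x * e
    rw [mul_assoc, hpe.2]
  have hvv : (v : H →L[ℂ] H) * star (v : H →L[ℂ] H) * v = v := by
    have hpp : star (v : H →L[ℂ] H) * v * (star (v : H →L[ℂ] H) * v) = star (v : H →L[ℂ] H) * v :=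
      congrArg Subtype.val hp1.2
    set w : H →L[ℂ] H := (v : H →L[ℂ] H) with hw
    have h0 : star (w * star w * w - w) * (w * star w * w - w) = 0 := by
      have h1 : star (w * star w * w - w) = star w * w * star w - star w := by
        rw [star_sub, star_mul, star_mul, star_star, ← mul_assoc]
      rw [h1]
      have h2 : (star w * w * star w - star w) * (w * star w * w - w) =
          star w * w * (star w * w) * (star w * w) - star w * w * (star w * w)
            - star w * w * (star w * w) + star w * w := by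
        noncomm_ring
      rw [h2, hpp, hpp]
      abel
    have h3 := (CStarRing.star_mul_self_eq_zero_iff _).1 h0
    exact sub_eq_zero.1 h3
  refine ⟨(v : H →L[ℂ] H), v.2, ?_, hvv, congrArg Subtype.val hev', congrArg Subtype.val hfv'⟩
  intro h0
  refine hne ?_
  have : (v : H →L[ℂ] H) * a = f * x * e := congrArg Subtype.val hva
  rw [← this, h0, zero_mul]

end Pool.Agent.W395.WD
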